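import Mathlib

set_option autoImplicit false

namespace Pool.Agent.Results.MP_4caafd_al.Rees

open Set Filter Topology

/-- A topological semigroup. -/
structure TS where
  Y : Type
  [t : TopologicalSpace Y]
  [s : Semigroup Y]
  [c : ContinuousMul Y]

attribute [instance] TS.t TS.s TS.c

/-- `X` is `C`-closed: the image of every homomorphic embedding of the discrete `X` into a member of `C`
is closed. -/
def CClosed (C : Set TS) (X : Type) [Semigroup X] : Prop :=
  ∀ Y ∈ C, ∀ h : X →ₙ* Y.Y, @IsEmbedding X Y.Y ⊥ _ h → IsClosed (range h)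

/-- `X / ≈` is `C`-closed for every congruence. -/
def ProjClosed (C : Set TS) (X : Type) [Semigroup X] : Prop := ∀ c : Con X, CClosed C c.Quotient

/-- `X / I` is `C`-closed for every ideal `I` (possibly empty). -/
def IdealClosed (C : Set TS) (X : Type) [Semigroup X] : Prop :=
  ∀ I : Set X, (∀ a ∈ I, ∀ x, a * x ∈ I ∧ x * a ∈ I) → ∀ c : Con X,
    (∀ x y, c x y ↔ (x ∈ I ∧ y ∈ I) ∨ x = y) → CClosed C c.Quotient

/-- Hausdorff zero-dimensional topological semigroups. -/
def Tz : Set TS := {Y | T2Space Y.Y ∧ TopologicalSpace.IsTopologicalBasis {U : Set Y.Y | IsClopen U}}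

/-- `T₁` topological semigroups. -/
def T1 : Set TS := {Y | T1Space Y.Y}

abbrev G := ℕ → ZMod 2

@[ext] structure X where
  i : G
  g : G
  l : Bool

instance : Semigroup X where
  mul a b := ⟨a.i, a.g + (if a.l then b.i else 0) + b.g, b.l⟩
  mul_assoc a b c := X.ext rfl (by
    show a.g + _ + b.g + _ + c.g = a.g + _ + (b.g + _ + c.g)
    simp only [add_assoc]; rfl) rfl

lemma mul_def (a b : X) : a * b = ⟨a.i, a.g + (if a.l then b.i else 0) + b.g, b.l⟩ := rfl

lemma two (g : G) : g + g = 0 := funext fun n => CharTwo.add_self_eq_zero (g n)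

lemma closed {Y : Type} [TopologicalSpace Y] [Semigroup Y] [ContinuousMul Y] [T1Space Y] (h : X →ₙ* Y)
    (hh : @IsEmbedding X Y ⊥ _ h) : IsClosed (range h) := by
  refine isClosed_of_closure_subset fun y hy => ?_
  have : (comap h (𝓝 y)).NeBot := mem_closure_iff_comap_neBot.1 hy |> fun _ =>
    comap_neBot fun t ht => by obtain ⟨_, h1, x, rfl⟩ := mem_closure_iff_nhds.1 hy t ht; exact ⟨x, h1⟩
  set U := Ultrafilter.of (comap h (𝓝 y)) with hU
  have t1 : Tendsto h U (𝓝 y) := tendsto_iff_comap.2 (Ultrafilter.of_le _)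
  letI : TopologicalSpace X := ⊥
  obtain ⟨W, w1, w2⟩ := (hh.1.isOpen_iff (s := {⟨0, 0, false⟩})).1 trivial
  have key : ∀ f : X → G, (∃ z, Tendsto (fun x => h ⟨0, f x, false⟩) U (𝓝 z)) → ∃ c, ∀ᶠ x in U, f x = c := by
    rintro f ⟨z, hz⟩
    have e : z * z = h ⟨0, 0, false⟩ := by
      refine (tendsto_const_nhds_iff.1 ((hz.mul hz).congr fun x => ?_)).symm
      rw [← map_mul, mul_def]; simp [two]
    have h1 := ((hz.comp tendsto_fst).mul (hz.comp tendsto_snd) :
      Tendsto _ ((U : Filter X) ×ˢ (U : Filter X)) _).eventually (w1.mem_nhds (e ▸ w2.ge rfl))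
    obtain ⟨x, hx⟩ := h1.curry.exists
    refine ⟨f x, hx.mono fun x' hx' => ?_⟩
    have := congrArg X.g (w2.le (show ⟨0, f x, false⟩ * ⟨0, f x', false⟩ ∈ h ⁻¹' W by
      rw [mem_preimage, map_mul]; exact hx'))
    simp only [mul_def, Bool.false_eq_true, if_false, add_zero] at this
    rw [← add_left_inj (f x), add_comm, this, two]
  obtain ⟨a, ha⟩ := key (fun x => x.g) ⟨_, ((t1.const_mul (h ⟨0, 0, false⟩)).mul_const (h ⟨0, 0, false⟩)).congr
    fun x => by rw [← map_mul, ← map_mul]; simp [mul_def]⟩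
  obtain ⟨b, hb⟩ := key (fun x => x.i + x.g) ⟨_, ((t1.const_mul (h ⟨0, 0, true⟩)).mul_const (h ⟨0, 0, false⟩)).congr
    fun x => by rw [← map_mul, ← map_mul]; simp [mul_def]⟩
  obtain ⟨l, hl⟩ : ∃ l, ∀ᶠ x : X in U, x.l = l :=
    (Ultrafilter.eventually_exists_iff (f := U)).1 (Eventually.of_forall fun x => ⟨_, rfl⟩)
  refine ⟨⟨b - a, a, l⟩, tendsto_const_nhds_iff.1 (t1.congr' ?_)⟩
  filter_upwards [ha, hb, hl] with x h1 h2 h3
  rw [← h1, ← h2, ← h3, add_sub_cancel_right]

def LZ : Type := OnePoint G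
instance : Semigroup LZ where
  mul a _ := a
  mul_assoc _ _ _ := rfl

/-- An ideally `C`-closed semigroup that is not projectively `C`-closed, for every admissible class `C`. -/
theorem result : ∃ (X : Type) (_ : Semigroup X), ∀ C : Set TS, Tz ⊆ C → C ⊆ T1 →
    IdealClosed C X ∧ ¬ ProjClosed C X := by
  refine ⟨X, inferInstance, fun C h1 h2 => ⟨fun I hI c hc Y hY h hh => ?_, fun h => ?_⟩⟩
  · have : T1Space Y.Y := h2 hY
    rcases I.eq_empty_or_nonempty with rfl | ⟨a, ha⟩
    · letI : TopologicalSpace X := ⊥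
      letI : TopologicalSpace c.Quotient := ⊥
      haveI : DiscreteTopology X := ⟨rfl⟩
      haveI : DiscreteTopology c.Quotient := ⟨rfl⟩
      have := closed (h.comp c.mkMulHom) (hh.comp (f := c.mkMulHom)
        (IsOpenEmbedding.of_continuous_injective_isOpenMap continuous_of_discreteTopology
          (fun x y e => by simpa using (hc x y).1 (c.eq.1 e)) fun _ _ => isOpen_discrete _).isEmbedding)
      rwa [MulHom.coe_comp, (show Function.Surjective c.mkMulHom from Quotient.mk_surjective).range_comp] at this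
    · have all : ∀ x, x ∈ I := fun x => by
        have := (hI _ (hI a ha ⟨0, 0, x.l⟩).1 ⟨x.i, x.g - a.g, false⟩).2
        simpa [mul_def] using this
      refine Subsingleton.isClosed ?_
      rintro _ ⟨⟨x⟩, rfl⟩ _ ⟨⟨y⟩, rfl⟩
      exact congrArg h (c.eq.2 ((hc x y).2 (Or.inl ⟨all x, all y⟩)))
  letI : TopologicalSpace G := ⊥
  haveI : DiscreteTopology G := ⟨rfl⟩
  letI : TopologicalSpace LZ := inferInstanceAs (TopologicalSpace (OnePoint G))
  haveI : ContinuousMul LZ := ⟨continuous_fst⟩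
  let f : X →ₙ* LZ := ⟨fun x => (x.i : OnePoint G), fun _ _ => rfl⟩
  let k : (Con.ker f).Quotient →ₙ* LZ := ⟨fun q => Con.liftOn q f fun _ _ e => e, by rintro ⟨x⟩ ⟨y⟩; rfl⟩
  have t2 : T2Space (OnePoint G) := inferInstance
  have td : TotallySeparatedSpace (OnePoint G) := inferInstance
  have r : range k = range ((↑) : G → OnePoint G) := by
    ext y
    exact ⟨by rintro ⟨⟨x⟩, e⟩; exact ⟨x.i, e⟩, fun ⟨g, e⟩ => ⟨((⟨g, 0, false⟩ : X) : (Con.ker f).Quotient), e⟩⟩
  have := h (Con.ker f) ⟨LZ⟩ (h1 ⟨t2, isTopologicalBasis_isClopen (X := OnePoint G)⟩) k (by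
    letI : TopologicalSpace (Con.ker f).Quotient := ⊥
    haveI : DiscreteTopology (Con.ker f).Quotient := ⟨rfl⟩
    refine (IsOpenEmbedding.of_continuous_injective_isOpenMap continuous_of_discreteTopology
      (by rintro ⟨x⟩ ⟨y⟩ e; exact (Con.ker f).eq.2 e) fun s _ => isOpen_iff_mem_nhds.2 ?_).isEmbedding
    rintro _ ⟨⟨x⟩, hx, rfl⟩
    exact mem_of_superset ((OnePoint.isOpenEmbedding_coe.isOpenMap _ (isOpen_discrete {x.i})).mem_nhds ⟨_, rfl, rfl⟩)
      (by rintro _ ⟨_, rfl, rfl⟩; exact ⟨_, hx, rfl⟩))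
  rw [r] at this
  haveI nc : NoncompactSpace G := ⟨fun h => infinite_univ h.finite_of_discrete⟩
  exact OnePoint.infty_notMem_range_coe (this.closure_subset (OnePoint.denseRange_coe (X := G) OnePoint.infty))

end Pool.Agent.Results.MP_4caafd_al.Rees
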